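import Pool.Agent.helper36.WE.Level

/-!
# Short paths in Nielsen graphs of quadratic equations with few doubled variables

For a quadratic word equation `E` with `k` variables that occur twice (any number of constants and
of variables that occur once), every reachable pair of vertices of the Nielsen graph is joined by
a path of length at most `2 (2k+1)! (|E|+1)^2`.
-/

namespace Pool.Agent.Results.MP_c8d30a_lc.FewDoubled

open Pool.Agent.helper36.WE

variable {X A : Type} [DecidableEq X] [DecidableEq A]

lemma level_reach {s s' : Eqn X A} (hq : Quadratic s)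
    (h : Relation.ReflTransGen (fun s s' => Step s s' ∧ size s' = size s) s s') :
    Relation.ReflTransGen (DStep (dbl s)) s s' ∧ Quadratic s' ∧ (∀ z, occ s' z = occ s z) := by
  induction h with
  | refl => exact ⟨Relation.ReflTransGen.refl, hq, fun _ => rfl⟩
  | tail _ hbc ih =>
      rename_i b c _
      obtain ⟨h1, h2, h3⟩ := ih
      obtain ⟨h4, h5⟩ := levelstep h2 hbc.1 hbc.2
      have hd : dbl b = dbl s := by
        ext x
        rw [mem_dbl, mem_dbl, h3]
      rw [hd] at h4
      exact ⟨h1.tail h4, quadratic_step h2 hbc.1, fun z => (h5 z).trans (h3 z)⟩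

/-- **Theorem.** Let `E` be a quadratic word equation in which at most `k` variables occur twice.
If `v₁` is a vertex of the graph of `E` and `v₂` is reachable from `v₁`, then there is a path from
`v₁` to `v₂` with at most `2 (2k+1)! (|E|+1)^2` edges. -/
theorem result (X A : Type) [DecidableEq X] [DecidableEq A] (k : ℕ) (E : Eqn X A)
    (hE : Quadratic E) (hk : {x : X | occ E x = 2}.ncard ≤ k)
    (v₁ v₂ : Eqn X A) (h₁ : Reach E v₁) (h₂ : Reach v₁ v₂) :
    ∃ n ≤ 2 * (2 * k + 1).factorial * (size E + 1) ^ 2, PathLen n v₁ v₂ := by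
  classical
  have hdbl : ∀ s : Eqn X A, {x : X | occ s x = 2} = (dbl s : Set X) := by
    intro s
    ext x
    simp [mem_dbl]
  let P : Eqn X A → Prop := fun s => Quadratic s ∧ size s ≤ size E ∧ dbl s ⊆ dbl E
  have hPstep : ∀ s s', P s → Step s s' → P s' := by
    rintro s s' ⟨h1, h2, h3⟩ hst
    refine ⟨quadratic_step h1 hst, (size_le h1 hst).trans h2, ?_⟩
    intro x hx
    apply h3
    rw [mem_dbl] at hx ⊢
    have := occ_le h1 hst x
    have := h1 x
    omega
  have hPE : P E := ⟨hE, le_rfl, subset_rfl⟩
  have hP1 : P v₁ := by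
    induction h₁ with
    | refl => exact hPE
    | tail _ hbc ih => exact hPstep _ _ (ih (h₂.head hbc)) hbc
  have hcardE : (dbl E).card ≤ k := by
    rw [hdbl, Set.ncard_coe_finset] at hk
    exact hk
  obtain ⟨n, hn, hw⟩ := shorten P (fun s s' => size s' = size s) size
    (2 * (size E + 1) * (2 * k + 1).factorial) hPstep
    (fun s s' hs hst => size_le hs.1 hst)
    (fun s s' hs hst hne => lt_of_le_of_ne (size_le hs.1 hst) hne)
    (fun s s' hs hr => by
      obtain ⟨h1, -, -⟩ := level_reach hs.1 hr
      obtain ⟨S, hS, hc, hreach⟩ := reach_bound (dbl s) s (fun z hz => (mem_dbl _ _).mp hz)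
      have hcard : (dbl s).card ≤ k := (Finset.card_le_card hs.2.2).trans hcardE
      have hN : S.ncard ≤ 2 * (size E + 1) * (2 * k + 1).factorial := by
        refine hc.trans ?_
        apply Nat.mul_le_mul
        · have := hs.2.1
          omega
        · exact Nat.factorial_le (by omega)
      obtain ⟨n, hn, hw⟩ := exists_short_walk S hS _ hN hreach h1
      exact ⟨n, hn, hw.mono (fun a b h => h.step)⟩)
    (size E) v₁ v₂ hP1 hP1.2.1 h₂
  refine ⟨n, ?_, walk_pathLen hw⟩
  have : (size E + 1) * (2 * (size E + 1) * (2 * k + 1).factorial) =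
      2 * (2 * k + 1).factorial * (size E + 1) ^ 2 := by ring
  omega

end Pool.Agent.Results.MP_c8d30a_lc.FewDoubled
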