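import Pool.Agent.helper36.WE.SegBound

/-!
# Polynomial paths in Nielsen graphs of quadratic equations with a linear side

Let `E` be a quadratic word equation one side of which contains every variable at most once (all
regular equations have this property; the other side may contain arbitrarily many variables that
occur twice in it).  Then every reachable pair of vertices of the Nielsen graph is joined by a path
of length at most `165 (c^4+1) |E|^2`, where `c <= |E|/2` bounds the sizes of the blocks of
variables that occur on both sides; so by a path of length `O(|E|^6)`.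
-/

namespace Pool.Agent.Results.MP_c8d30a_lc.LinearSidePoly

open Pool.Agent.helper36.WE

set_option linter.unusedSectionVars false

variable {X A : Type} [DecidableEq X] [DecidableEq A]

attribute [local instance] lawfulBEq_sum

/-- The bound for blocks, right linear equations. -/
theorem blocks_bound (c : ℕ) (E : Eqn X A)
    (hE : Quadratic E) (hlin : RightLinear E) (b : X → ℕ) (hb : Blocks b E)
    (hc : ∀ i : ℕ, {x : X | Shared E x ∧ b x = i}.ncard ≤ c)
    (v₁ v₂ : Eqn X A) (h₁ : Reach E v₁) (h₂ : Reach v₁ v₂) :
    ∃ n, n < (2 * size E + 1) * (size E * (55 * c ^ 4 + 2) + 1) ∧ PathLen n v₁ v₂ := by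
  classical
  let P : Eqn X A → Prop := fun s => Inv b s ∧ size s ≤ size E ∧ ∀ z, Shared s z → Shared E z
  have hPstep : ∀ s s', P s → Step s s' → P s' := by
    rintro s s' ⟨h1, h2, h3⟩ hst
    exact ⟨h1.step hst, (size_le h1.quad hst).trans h2, fun z hz => h3 z ((stepInv h1 hst).sh z hz)⟩
  have hPE : P E := ⟨⟨hE, hlin, hb⟩, le_rfl, fun _ h => h⟩
  have hP1 : P v₁ := by
    induction h₁ with
    | refl => exact hPE
    | tail _ hbc ih => exact hPstep _ _ (ih (h₂.head hbc)) hbc
  have hfin : ∀ i, {x : X | Shared E x ∧ b x = i}.Finite := by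
    intro i
    refine (Finset.finite_toSet (dbl E)).subset ?_
    rintro x ⟨hx, -⟩
    rw [Finset.mem_coe, mem_dbl]
    have := shared_counts hE hx
    simp only [occ]
    omega
  have hcard : ∀ s, P s → (firstBlock b s).card ≤ c := by
    intro s hs
    rcases (firstBlock b s).eq_empty_or_nonempty with h | ⟨x, hx⟩
    · rw [h]; simp
    · rw [← Set.ncard_coe_finset]
      refine (Set.ncard_le_ncard ?_ (hfin (b x))).trans (hc (b x))
      intro z hz
      rw [Finset.mem_coe] at hz
      rw [mem_firstBlock hs.1.quad] at hx hz
      exact ⟨hs.2.2 z hz.1, le_antisymm (hz.2 x hx.1) (hx.2 z hz.1)⟩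
  obtain ⟨n, hn, hw⟩ := shorten P Reg (fun s => size s + s.2.length)
    (size E * (55 * c ^ 4 + 2) + 1) hPstep
    (fun s s' hs hst => Nat.add_le_add (size_le hs.1.quad hst) (stepInv hs.1 hst).len)
    (fun s s' hs hst hne => by
      have h1 := size_le hs.1.quad hst
      have h2 := (stepInv hs.1 hst).len
      rcases Nat.lt_or_ge (size s' + s'.2.length) (size s + s.2.length) with h | h
      · exact h
      · exfalso
        apply hne
        simp only [size] at h1 h
        exact ⟨by omega, by omega⟩)
    (fun s s' hs hr => by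
      obtain ⟨h1, -, -⟩ := reg_reach hs.1 hr
      obtain ⟨n, hn, hw⟩ := seg_bound (D := firstBlock b s) (fun x hx => by
        rw [mem_firstBlock hs.1.quad] at hx
        exact shared_counts hs.1.quad hx.1) h1
      refine ⟨n, ?_, hw⟩
      have h3 : size s * (55 * (firstBlock b s).card ^ 4 + 2) ≤ size E * (55 * c ^ 4 + 2) := by
        apply Nat.mul_le_mul hs.2.1
        have := Nat.pow_le_pow_left (hcard s hs) 4
        omega
      omega)
    (2 * size E) v₁ v₂ hP1 (by
      have := hP1.2.1
      simp only [size] at this ⊢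
      omega) h₂
  exact ⟨n, hn, walk_pathLen hw⟩

lemma reach_swap' {s t : Eqn X A} (h : Reach s t) : Reach s.swap t.swap := by
  induction h with
  | refl => exact Relation.ReflTransGen.refl
  | tail _ hbc ih => exact ih.tail (step_swap hbc)

lemma shared_swap (E : Eqn X A) (x : X) : Shared E.swap x ↔ Shared E x :=
  ⟨fun h => ⟨h.2, h.1⟩, fun h => ⟨h.2, h.1⟩⟩

lemma shared_card (E : Eqn X A) : 2 * {x : X | Shared E x}.ncard ≤ size E := by
  classical
  have key : ∀ l : List (X ⊕ A), (∀ x, Shared E x → Sum.inl x ∈ l) →
      {x : X | Shared E x}.ncard ≤ l.length := by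
    intro l hl
    have hsub : {x : X | Shared E x} ⊆ ((l.filterMap Sum.getLeft?).toFinset : Set X) := by
      intro x hx
      rw [Finset.mem_coe, List.mem_toFinset, List.mem_filterMap]
      exact ⟨Sum.inl x, hl x hx, rfl⟩
    refine (Set.ncard_le_ncard hsub (Finset.finite_toSet _)).trans ?_
    rw [Set.ncard_coe_finset]
    exact (List.toFinset_card_le _).trans (List.length_filterMap_le _ _)
  have h1 := key E.1 (fun x hx => hx.1)
  have h2 := key E.2 (fun x hx => hx.2)
  simp only [size]
  omega

/-- **Theorem.** Let `E` be a quadratic word equation one side of which contains every variable at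
most once.  Let `b` split the variables that occur on both sides into blocks of at most `c`
variables such that a variable of a smaller block precedes a variable of a larger block on both
sides (a single block is allowed).  Let `v₁` be a vertex of the graph of `E` and let `v₂` be
reachable from `v₁`.  Then there is a path from `v₁` to `v₂` with at most `165 (c^4+1) |E|^2`
edges. -/
theorem result (X A : Type) [DecidableEq X] [DecidableEq A] (E : Eqn X A)
    (hE : Quadratic E) (hlin : RightLinear E ∨ RightLinear E.swap) (c : ℕ) (b : X → ℕ)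
    (hb : Blocks b E) (hc : ∀ i : ℕ, {x : X | Shared E x ∧ b x = i}.ncard ≤ c)
    (v₁ v₂ : Eqn X A) (h₁ : Reach E v₁) (h₂ : Reach v₁ v₂) :
    ∃ n ≤ 165 * (c ^ 4 + 1) * size E ^ 2, PathLen n v₁ v₂ := by
  have core : ∃ n, n < (2 * size E + 1) * (size E * (55 * c ^ 4 + 2) + 1) ∧ PathLen n v₁ v₂ := by
    rcases hlin with hlin | hlin
    · exact blocks_bound c E hE hlin b hb hc v₁ v₂ h₁ h₂
    · obtain ⟨n, hn, hw⟩ := blocks_bound c E.swap (quadratic_swap hE) hlin b
        (fun x y hx hy hxy => by
          have := hb x y ((shared_swap E x).mp hx) ((shared_swap E y).mp hy) hxy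
          exact ⟨this.2, this.1⟩)
        (fun i => by
          have e : {x : X | Shared E.swap x ∧ b x = i} = {x : X | Shared E x ∧ b x = i} := by
            ext x
            simp only [Set.mem_ofPred_eq, shared_swap]
          rw [e]; exact hc i) v₁.swap v₂.swap (reach_swap' h₁) (reach_swap' h₂)
      rw [size_swap] at hn
      refine ⟨n, hn, ?_⟩
      have := walk_swap hw
      rw [Prod.swap_swap, Prod.swap_swap] at this
      exact walk_pathLen this
  rcases Nat.eq_zero_or_pos (size E) with h0 | h0
  · -- the empty equation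
    have hE0 : E = ([], []) := by
      have h1 : E.1.length + E.2.length = 0 := h0
      exact Prod.ext (List.length_eq_zero_iff.mp (by omega))
        (List.length_eq_zero_iff.mp (by omega))
    have hstuck : ∀ v, Reach E v → v = E := by
      intro v hv
      rcases Relation.ReflTransGen.cases_head hv with h | ⟨c, h, -⟩
      · exact h.symm
      · exfalso
        rw [hE0] at h
        cases h
    have e1 := hstuck v₁ h₁
    have e2 := hstuck v₂ (h₁.trans h₂)
    rw [e1, e2]
    exact ⟨0, Nat.zero_le _, Walk.refl _ _⟩
  · obtain ⟨n, hn, hw⟩ := core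
    refine ⟨n, ?_, hw⟩
    have h1 : 2 * size E + 1 ≤ 3 * size E := by omega
    have h2 : size E * (55 * c ^ 4 + 2) + 1 ≤ size E * (55 * c ^ 4 + 3) := by nlinarith
    have h3 : (2 * size E + 1) * (size E * (55 * c ^ 4 + 2) + 1) ≤
        165 * (c ^ 4 + 1) * size E ^ 2 :=
      calc (2 * size E + 1) * (size E * (55 * c ^ 4 + 2) + 1)
          ≤ (3 * size E) * (size E * (55 * c ^ 4 + 3)) := Nat.mul_le_mul h1 h2
        _ = (165 * c ^ 4 + 9) * size E ^ 2 := by ring
        _ ≤ 165 * (c ^ 4 + 1) * size E ^ 2 := Nat.mul_le_mul_right _ (by omega)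
    omega

/-- The special case of a single block: the exponent `12` of the problem can be replaced by `6`
for all quadratic equations with a linear side, in particular for all regular equations. -/
theorem sixth_power (X A : Type) [DecidableEq X] [DecidableEq A] (E : Eqn X A)
    (hE : Quadratic E) (hlin : RightLinear E ∨ RightLinear E.swap)
    (v₁ v₂ : Eqn X A) (h₁ : Reach E v₁) (h₂ : Reach v₁ v₂) :
    ∃ n ≤ 176 * size E ^ 6, PathLen n v₁ v₂ := by
  set c := {x : X | Shared E x}.ncard with hcdef
  have hc2 : 2 * c ≤ size E := shared_card E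
  have hfin : {x : X | Shared E x}.Finite := by
    refine (Finset.finite_toSet (dbl E)).subset ?_
    intro x hx
    rw [Finset.mem_coe, mem_dbl]
    have := shared_counts hE hx
    simp only [occ]
    omega
  obtain ⟨n, hn, hw⟩ := result X A E hE hlin c (fun _ => 0)
    (fun _ _ _ _ h => absurd h (lt_irrefl _))
    (fun i => Set.ncard_le_ncard (fun x hx => hx.1) hfin) v₁ v₂ h₁ h₂
  refine ⟨n, hn.trans ?_, hw⟩
  rcases Nat.eq_zero_or_pos (size E) with h0 | h0
  · rw [h0]; simp
  · have h2 : (2 * c) ^ 4 ≤ size E ^ 4 := Nat.pow_le_pow_left hc2 4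
    have h3 : (2 * c) ^ 4 = 16 * c ^ 4 := by ring
    have h4 : 1 ≤ size E ^ 4 := Nat.one_le_pow _ _ h0
    have h5 : 165 * (c ^ 4 + 1) ≤ 176 * size E ^ 4 := by omega
    calc 165 * (c ^ 4 + 1) * size E ^ 2 ≤ 176 * size E ^ 4 * size E ^ 2 :=
        Nat.mul_le_mul_right _ h5
      _ = 176 * size E ^ 6 := by ring

end Pool.Agent.Results.MP_c8d30a_lc.LinearSidePoly
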