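import Pool.Agent.helper65.D3.Q1

/-!
# Paths of length `C |E| ^ 12` in the Nielsen graphs of all quadratic word equations

There is a constant `C` such that, for every quadratic word equation `E`, whenever a vertex `v₂` of the Nielsen graph of `E` is
reachable from a vertex `v₁`, there is a directed path from `v₁` to `v₂` with at most `C |E| ^ 12` edges.
-/

set_option autoImplicit false

namespace Pool.Agent.Results.MP_c8d30a_lc.PathsDegreeTwelve

open Pool.Agent.helper36.WE

/-- The theorem. -/
theorem result : ∃ C : ℕ, ∀ (X A : Type) [DecidableEq X] [DecidableEq A] (E v₁ v₂ : Eqn X A),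
    Quadratic E → Reach E v₁ → Reach v₁ v₂ → ∃ n, n ≤ C * size E ^ 12 ∧ PathLen n v₁ v₂ :=
  D3.Q1

end Pool.Agent.Results.MP_c8d30a_lc.PathsDegreeTwelve
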